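import Mathlib
import Pool.Agent.J4H9.HGStm
import Pool.Agent.N507.GHC3.Zero

/-!
# The variational Hodge conjecture for abelian schemes with reductions in almost all isogeny classes

Let `𝒢` be the set of all pairs `(q, f)` such that each complex abelian variety `Y` without complex
multiplication which is a lifting of the isogeny class over the field with `q` elements with the
characteristic polynomial `f` of Frobenius (`IsLifting`: `Y` has a model over a finitely generated
field with good reduction of this class at one place) has only endomorphisms with real eigenvalues,
and the largest possible Hodge group, the Lefschetz group (`Pool.Agent.J4H9.HG.fullSet`).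

We show that almost all isogeny classes, in each Newton stratum of height at most `(1 / 2 - μ) g` and
over each sufficiently large finite field, are in `𝒢` (`AlmostAll 𝒢`): the exceptions are at most
`D 2 ^ #E 8 ^ g q ^ (- (μ / 4 - ε) g)` times the number of elements, for each subset `S` of the stratum
which contains at least `1 / D` of its elements. If `q > 2 ^ (12 / μ)` is fixed and the dimension `g`
tends to infinity then the proportion of the exceptions tends to zero exponentially; the slopes
`lam i = 0` give all abelian varieties over the field with `q` elements.

Let `𝒳` be an abelian scheme over a smooth connected quasi-projective complex variety, given by its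
members `X s`, where `s` runs through the universal covering `S` of the base, the space `W` of the
flat sections of the homology over `S` and the monodromy group (`AbelianScheme`). Assume that each
simple factor of the very general member of `𝒳` is without complex multiplication and a lifting of an
isogeny class in `𝒢`, or a factor of an abelian variety of dimension at most three. The pairs `(q, f)`
may be different for the different factors. For instance, suppose that the very general member is a
product of powers of simple abelian varieties, that these are the very general members of abelian
schemes `𝒴 i`, and that for each `i` **one** member of `𝒴 i` has good reduction of a class in `𝒢` at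
one place: then (after a change of the model of the base in a neighbourhood of this point) the generic
member of `𝒴 i` has the same good reduction, so that it is a lifting of this class.

**Theorem** (`VHC`): let `f` be a flat section of the cohomology of `𝒳`, of any degree, which is
invariant under the monodromy group and algebraic on one member. Then `f` is algebraic on every
member. This is the variational Hodge conjecture for `𝒳`, in all codimensions. As the powers of `𝒳` and
the products of such schemes have the same simple factors, they are included.

The algebraic classes are given by a system `𝒜` (`Pool.Agent.R915.Sys`, the theorems of Lefschetz and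
Markman are part of it) of Hodge classes. `IsVeryGeneral` says that a flat class which is algebraic at
the very general point `η` is algebraic at every point (this follows from the countability of the
components of the Hilbert schemes and from the specialization of cycles), and the field `fixedPart` of
`AbelianScheme` is Deligne's theorem of the fixed part.

The proof: by the counting part of `MP_021685_ag/NewtonStrata` the Hodge ring of all powers is
generated by divisor classes for almost all liftings. Here it is shown that an endomorphism of the
lifting, which is given by an equivariant function on the Weil numbers, has real eigenvalues or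
generates a field of complex multiplication, and that the Lie algebra of the Hodge group is the
Lefschetz Lie algebra (`HGFull`: the Casimir element of the Hodge Lie algebra is a Hodge class of
degree four). By the theorem of `MP_90e98f_ag/PowersAndCMFields` this implies the generalized Hodge
conjecture for the very general member, in particular the Hodge conjecture.
-/

set_option autoImplicit false

namespace Pool.Agent.Results.MP_e9c0f3_ag.AlmostAllLiftings

open Module Polynomial Pool.Agent.Y90 Pool.Agent.R915 Pool.Agent.J4H9.HG
open Pool.Agent.H204R3.CM (IsHodge)

/-- An abelian scheme over a smooth connected variety (up to isogeny). -/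
structure AbelianScheme where
  /-- the points of the universal covering of the base -/
  S : Type
  /-- the flat sections of the first homology over the universal covering -/
  W : Type
  [addW : AddCommGroup W]
  [modW : Module ℚ W]
  /-- the members -/
  X : S → AV
  /-- the flat sections are determined by their values at the point `s` -/
  e : ∀ s, (X s).H ≃ₗ[ℚ] W
  /-- the monodromy group -/
  mon : Subgroup (W ≃ₗ[ℚ] W)
  /-- Deligne's theorem of the fixed part: a flat class which is invariant under the monodromy group
  and a Hodge class on one member is a Hodge class on all members -/
  fixedPart : ∀ {κ : Type} [Finite κ] (f : W [⋀^κ]→ₗ[ℚ] ℚ),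
    (∀ γ ∈ mon, f.compLinearMap γ.toLinearMap = f) → ∀ s t,
      IsHodge (X s).per (f.compLinearMap (e s).toLinearMap) →
        IsHodge (X t).per (f.compLinearMap (e t).toLinearMap)

attribute [instance] AbelianScheme.addW AbelianScheme.modW

/-- The value of the flat class `f` at the point `s`. -/
def AbelianScheme.at (F : AbelianScheme) {κ : Type} (f : F.W [⋀^κ]→ₗ[ℚ] ℚ) (s : F.S) :
    (F.X s).H [⋀^κ]→ₗ[ℚ] ℚ := f.compLinearMap (F.e s).toLinearMap

/-- The point `η` is very general: flat classes which are algebraic at `η` are algebraic at each
point. -/
def IsVeryGeneral (𝒜 : Sys) (F : AbelianScheme) (η : F.S) : Prop :=
  ∀ (κ : Type) [Finite κ] (f : F.W [⋀^κ]→ₗ[ℚ] ℚ), 𝒜.A (F.X η) κ (F.at f η) →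
    ∀ s, 𝒜.A (F.X s) κ (F.at f s)

/-- The variational Hodge conjecture: a flat class which is invariant under the monodromy group and
algebraic on the member at `s₀` is algebraic on all members. -/
def VHC (𝒜 : Sys) (F : AbelianScheme) : Prop :=
  ∀ (κ : Type) [Finite κ] (f : F.W [⋀^κ]→ₗ[ℚ] ℚ),
    (∀ γ ∈ F.mon, f.compLinearMap γ.toLinearMap = f) → ∀ s₀, 𝒜.A (F.X s₀) κ (F.at f s₀) →
      ∀ s, 𝒜.A (F.X s) κ (F.at f s)

/-- **The variational Hodge conjecture for the abelian schemes whose very general member is built from
liftings of isogeny classes in a set `𝒢` which contains almost all isogeny classes.** -/
theorem result : ∃ 𝒢 : Set (ℕ × ℤ[X]), AlmostAll 𝒢 ∧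
    ∀ 𝒜 : Sys, (∀ (X : AV) (κ : Type) (f : X.H [⋀^κ]→ₗ[ℚ] ℚ), 𝒜.A X κ f → IsHodge X.per f) →
      ∀ (F : AbelianScheme) (η : F.S), IsVeryGeneral 𝒜 F η → HasFactorsIn 𝒢 (F.X η) → VHC 𝒜 F := by
  refine ⟨fullSet, almostAll_fullSet, fun 𝒜 h𝒜 F η hη hF κ _ f hf s₀ hs₀ => ?_⟩
  exact hη κ f (Pool.Agent.N507.GHC3.t_ZERO 𝒜 _ (ghc_liftings 𝒜 hF) κ _
    (F.fixedPart f hf s₀ η (h𝒜 _ _ _ hs₀)))

end Pool.Agent.Results.MP_e9c0f3_ag.AlmostAllLiftings
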