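import Mathlib
import Pool.Agent.J4H50.VH.Final

/-!
# The variational Hodge conjecture for products of any family with members of an independent family

Let `B` be a smooth connected quasi-projective variety over `ℂ`. A family over `B` is given by its
fibres and by the parallel transport in their cohomology along the paths in `B`: the base enters
through its fundamental groupoid `S` (the objects are the points of `B`, the morphisms the homotopy
classes of paths, `End s` is the fundamental group with the base point `s`), and `Fam ℛ S` consists of
smooth projective varieties `X s` and of isomorphisms `T γ` between their cohomology algebras, for
all paths `γ`, which preserve the degrees, the orientations and the rational classes. The
cohomology is singular cohomology with coefficients in `ℂ`, with the rational classes `ℛ`; the theorem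
is proved for an abstract Weil cohomology theory with a rational structure.

`F.VHC p` is the variational Hodge conjecture in codimension `p` for the family `F` and its base
changes to all finite étale coverings of the base: if the class of a cycle of codimension `p` on one
fibre is fixed by a subgroup of finite index of the fundamental group, then its parallel transport
along any path is the class of a cycle on the other fibre. (For the invariants of the whole
fundamental group this is the conjecture for `F` itself.)

Let `V i` be any family of representations of the fundamental group such that the representations
`End (V i)` are semisimple, and which are pairwise independent: every equivariant map from `End (V i)`
to `End (V j)` has its values in the span of the semi-invariant vectors. For instance the local systems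
`R^1` of families of curves whose monodromy groups are Zariski dense in the symplectic groups, which do
not become isomorphic over a finite covering, the vanishing cohomology of families of hypersurfaces or
complete intersections with large monodromy, and mixtures of these. A good factor of type `V i` is a
family `P` whose cohomology is generated by `V i` and (semi-)invariant classes and whose flat classes
are algebraic on all fibres, for instance, by classical invariant theory, the fibre powers of these
families (for even dimensions the powers with exponent less than the rank of `V i`); the other
hypotheses (semisimplicity, no characters of infinite order, existence of a polarization) are true
for all families.

**Theorem.** Let `Z` be an **arbitrary** family over the same base; nothing is assumed. There is a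
finite set `E` of indices, with at most `(b - b') / 2` elements, where `b` is the sum of the Betti
numbers of the fibre of `Z` and `b' ≥ 1` is the dimension of the span of the semi-invariant classes,
and which does not contain the `i` such that an element of the fundamental group acts by a scalar on
the cohomology of `Z` and by a transvection or by a reflection on the irreducible space `V i` (the
local monodromy at a divisor at which the factor has a fibre with a node and `Z` has good
reduction), such that the following is true. Let `Z''` be a product of a family `Z'` which is
generated by the cohomology of `Z` (for instance `Z`, its fibre powers, and their products with constant
families) with arbitrary families of the types `V j`, `j` in a list `M`, whose flat classes need not be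
algebraic. Let `Y` be the fibre product of `Z''` with good factors of the types `V i` with pairwise
different indices outside of `E` and `M`, of total relative dimension `d`. Then

* **the variational Hodge conjecture is true for `Y` in codimension `p` if and only if it is true for
  `Z''` in all codimensions `j` with `p - d ≤ j ≤ p`; in this case it is true in codimension `p` for all
  families dominated by `Y`;**
* the flat algebraic classes on the fibres of `Y` satisfy the Künneth formula.

**If `Z` is constant then `E` is empty.** As the variational Hodge conjecture is trivial for constant
families, this proves it for all families which are dominated by a fibre product of good factors with
pairwise different indices and of a constant family with an arbitrary fibre. (For nonconstant `Z` of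
relative dimension at most three the conjecture is known for `Z`, so that it follows for `Y`.)

The proof. Let `c` be a flat class on a fibre of `P × Y`, algebraic on this fibre. By the theorem of the
starting library on slices (for splitting derivations of the category of potential
representations) the slices of `c` on `P` at the base point are combinations of semi-invariant
classes, so `c` is a sum of products `m ⊗ w` of flat classes. As the cohomology of `P` is semisimple,
the trace form is nondegenerate on the flat classes of `P`, so there are dual flat classes `m'`; all
flat classes of `P` are algebraic on all fibres, and `w = pr_* (m' c)` is algebraic on the given fibre.
The parallel transport of `w` is algebraic on the other fibres by the conjecture for `Y`. The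
passage from linear combinations with complex coefficients to rational cycles uses the rational
structure. The bound on the number of the exceptions comes from the rank of the Lie algebra of
the derivations acting on the cohomology of `Z`.
-/

set_option autoImplicit false

open CategoryTheory

universe u

namespace Pool.Agent.Results.MP_e9c0f3_ag.IndependentMonodromy

open Pool.Agent.H914 Pool.Agent.N179.GR.S Pool.Agent.J4H50.VH

/-- **The variational Hodge conjecture for the fibre products of an arbitrary family with members of
an independent family.** -/
theorem result {k : Type u} [Field k] {𝒱 : VarClass k} {ops : CycleOps 𝒱}
    {W : WeilCohomology.{u, 0} ops} (hK : Nonempty (W.K ≃+* ℂ)) (ℛ : RatStr W)
    {S : Type} [Groupoid.{0} S] (s₁ : S) (hS : ∀ t : S, Nonempty (s₁ ⟶ t))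
    {ι : Type} {V : ι → GRep W.K (End s₁)} (hV : Family V) (Z : Fam ℛ S) :
    ∃ E : Set ι, ExceptionalSet s₁ V Z E :=
  final hK ℛ s₁ hS hV Z

end Pool.Agent.Results.MP_e9c0f3_ag.IndependentMonodromy
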