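import Pool.Agent.J4H47.VH.Main

/-!
# Index laws for the variational Hodge conjecture

Let `S` be a smooth connected complex variety, `k` an algebraic closure of its function field and `𝒱`
the class of the smooth projective varieties over `k` which extend to smooth projective families over
a finite étale covering of `S`. Fix a very general point `b` of `S`; then `W : X ↦ H(X_b, ℚ)` is a Weil
cohomology theory on `𝒱`. The fundamental group of `S` and its subgroups of finite index act on it
(`Monodromy`): the classes fixed by a subgroup of finite index are the flat classes, that is,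
the global sections over a finite étale covering of `S`. A point `t` of the universal covering of `S`
gives the fibres `X_t`, the parallel transport `H(X_b) → H(X_t)` and the specialization of cycles and of
algebraic correspondences (`Fibre`).

Let `T` be a set of points (the index set `ι`; the variational Hodge conjecture is about sets with
one element). `FlatAlg M S X j c` says that the flat class `c` of codimension `j` is algebraic on all
the fibres `X_t`, `t ∈ T`, and `VHC M S X j` that then it is algebraic on the geometric generic
fibre `X`, and hence (by specialization) on all fibres.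

**Theorem.** Let `a_T (n)` be the number of linearly independent flat classes on `X ^ (n + 1)` which
are algebraic on the fibres at the points of `T`, and `r (n)` the rank of the group of the cycles on
`X ^ (n + 1)` modulo numerical equivalence.

1. `a_T (n) / r (n)` converges to an element `N` of `{1, 2, …, ∞}`. We have `N = 1` if and only if the
  variational Hodge conjecture (from `T` to all fibres) holds for all powers of `X` and homological
  and numerical equivalence agree on them. If `N` is finite then the latter is true.

2. Suppose that the even projector of `X` is algebraic. Now let `a (n)` and `r (n)` be the numbers of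
  classes in the middle degree of `X ^ (2 n + 2)`, and `b` the sum of the Betti numbers of `X`. Then
  `0 < r n ≤ a n ≤ (n + 2) ^ (b ^ 2) r n`. For every `κ`, the variational Hodge conjecture holds for
  `X ^ (κ + 1)` in all codimensions (and homological and numerical equivalence agree), or
  `a n ≥ (2 - 2 (κ + 1) b ^ (2 κ + 4) log (n + 2) / n) r n` for all `n ≥ 1`. So a single flat class
  which is algebraic on the fibres at the points of `T`, but not on all fibres, forces an explicit
  surplus of such classes on all large powers; and conversely: if on one large power slightly more than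
  one half of the flat classes which are algebraic at the points of `T` are algebraic everywhere, then
  the variational Hodge conjecture is true for `X ^ (κ + 1)`.

3. Let `T'` be a nonempty subset of `T`, and suppose that the standard conjecture of Lefschetz type
  holds for the fibres of the powers of `X` at the points of `T` (`LefschetzFibres`; this is known for
  families of abelian varieties). There are `P`, `N` in `{1, 2, …, ∞}` with `a_T' / a_T → P`,
  `a_T / r → N`, `a_T' / r → P N`. We have `P = 1` if and only if on all powers the flat classes which
  are algebraic at `T'` are algebraic at `T`, and otherwise asymptotically at most one half of them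
  are algebraic at `T`; `N = 1`, respectively `P N = 1`, if and only if the variational Hodge
  conjecture from `T`, respectively from `T'`, to all fibres holds for all powers. In
  particular, if the index of one fibre, at the point `s`, is a prime number, then for every point `t`
  all flat classes algebraic at `s` are algebraic at `t`, or all flat classes algebraic at `s` and at
  `t` are algebraic everywhere.
-/

open CategoryTheory AlgebraicGeometry

universe u v

namespace Pool.Agent.Results.MP_e9c0f3_ag.IndexLaws

open Pool.Agent.H914 Pool.Agent.H447 Pool.Agent.W534 Pool.Agent.R940 Pool.Agent.J4H47.VH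
open Pool.Agent.Y133.Half (cycRank dimBy dimOf HasIndex AtMostHalf)

/-- The index law: `a / r → N`, and `N = 1` if and only if `V` and `D` hold for all powers; if `N` is
finite then `D` holds for all powers. -/
def IndexLaw (a r : ℕ → ℕ) (V D : ℕ → Prop) : Prop :=
  ∃ N : ℕ∞, 1 ≤ N ∧ HasIndex a r N ∧ (N = 1 ↔ ∀ n, V n ∧ D n) ∧ (N ≠ ⊤ → ∀ n, D n)

/-- The effective index law with the constant `b`. -/
def EffectiveLaw (b : ℕ) (a r : ℕ → ℕ) (V D : ℕ → Prop) : Prop :=
  (∀ n, 0 < r n ∧ r n ≤ a n ∧ a n ≤ (n + 2) ^ (b ^ 2) * r n) ∧
    ∀ κ, (V κ ∧ D κ) ∨ NearlyTwice (indexConst b κ) a r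

/-- The tower law: `a' / a → P`, `a / r → N`, `a' / r → P N`; `P = 1`, `N = 1`, `P N = 1` are equivalent
to `E`, `V`, `V'`. -/
def TowerLaw (a' a r : ℕ → ℕ) (E V V' : Prop) : Prop :=
  ∃ P N : ℕ∞, 1 ≤ P ∧ 1 ≤ N ∧ HasIndex a' a P ∧ HasIndex a r N ∧ HasIndex a' r (P * N) ∧
    (P = 1 ↔ E) ∧ (N = 1 ↔ V) ∧ (P * N = 1 ↔ V') ∧ (P ≠ 1 → AtMostHalf a a') ∧
    ∀ p : ℕ, p.Prime → P * N = p → P = 1 ∨ N = 1

variable {k : Type u} [Field k] {𝒱 : VarClass k} {ops : CycleOps 𝒱}
  {k₀ : Type u} [Field k₀] {𝒱₀ : VarClass k₀} {ops₀ : CycleOps 𝒱₀}
  {W : WeilCohomology.{u, v} ops} {W₀ : WeilCohomology.{u, v} ops₀} {ι ι' : Type}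

/-- The number of linearly independent flat classes on the product of `n + 1` copies of `X` which are
algebraic on the fibres at the points of the set `ι`. -/
noncomputable def flats (M : Monodromy.{u, v} W) (S : ι → Fibre W W₀) (X : 𝒱.Obj) (n : ℕ) : ℕ :=
  dimBy W (FlatAlg M S) (Pool.Agent.Y133.Half.pw X n)

/-- **Index laws for the variational Hodge conjecture.** -/
theorem result (M : Monodromy.{u, v} W) (S : ι → Fibre W W₀) (X : 𝒱.Obj)
    [Nontrivial (W.H X)] :
    IndexLaw (flats M S X) (fun n => cycRank ops (Pool.Agent.Y133.Half.pw X n))
      (fun n => VHC M S (Pool.Agent.Y133.Half.pw X n))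
      (fun n => HomEqNum W (Pool.Agent.Y133.Half.pw X n)) ∧
    (∀ D, X.IsCyc 1 D → Pool.Agent.Y163.Big ops X D → SignStd W X →
      EffectiveLaw (Pool.Agent.R940.betti W X)
        (fun n => dimOf W {c | FlatAlg M S (Pool.Agent.Y163.sq X n) ((n + 1) * X.dim) c})
        (fun n => numRank ops (Pool.Agent.Y163.sq X n) ((n + 1) * X.dim))
        (fun n => VHC M S (Pool.Agent.Y163.pw X n))
        (fun n => HomEqNum W (Pool.Agent.Y163.pw X n))) ∧
    ∀ [Algebra W.K ℝ] (f : ι' → ι), Nonempty ι' →
      (∀ n, ∃ D, LefschetzFibres S (Pool.Agent.Y133.Half.pw X n) D) →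
      TowerLaw (flats M (S ∘ f) X) (flats M S X)
        (fun n => cycRank ops (Pool.Agent.Y133.Half.pw X n))
        (∀ n j c, FlatAlg M (S ∘ f) (Pool.Agent.Y133.Half.pw X n) j c →
          FlatAlg M S (Pool.Agent.Y133.Half.pw X n) j c)
        (∀ n, VHC M S (Pool.Agent.Y133.Half.pw X n))
        (∀ n, VHC M (S ∘ f) (Pool.Agent.Y133.Half.pw X n)) :=
  ⟨flat_index M S X,
    fun D hD hbig hX => flat_effective M S X D hD hbig hX _ _ (fun _ => rfl) fun _ => rfl,
    fun f hne hL => haveI := hne; flat_tower M S f X hL⟩

end Pool.Agent.Results.MP_e9c0f3_ag.IndexLaws
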